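import Pool.Agent.H94.Per7

open MeasureTheory
open scoped ENNReal

namespace Pool.Agent.Results.MP_484e46_gt.MinPerimeter

/-- The cube `[-1,1]^n`. -/
def cube (n : ℕ) : Set (EuclideanSpace ℝ (Fin n)) := {x | ∀ i, |x i| ≤ 1}

/-- The perimeter of the central section: the `(n-2)`-dimensional Hausdorff measure (normalised to
agree with Lebesgue measure) of the boundary of `u^⊥ ∩ cube`, taken relative to `u^⊥`. -/
noncomputable def perim {n : ℕ} (u : EuclideanSpace ℝ (Fin n)) : ℝ≥0∞ :=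
  μHE[n - 2] (Subtype.val '' frontier (Subtype.val ⁻¹' cube n : Set (ℝ ∙ u)ᗮ))

theorem result :
    (∀ u : EuclideanSpace ℝ (Fin 2), ‖u‖ = 1 → perim u = 2) ∧
    ∀ n : ℕ, 3 ≤ n → ∀ u : EuclideanSpace ℝ (Fin n), ‖u‖ = 1 →
      (((n - 1) * 2 ^ (n - 1) : ℕ) : ℝ≥0∞) ≤ perim u ∧
      (perim u = (((n - 1) * 2 ^ (n - 1) : ℕ) : ℝ≥0∞) ↔
        ∃ i, u = EuclideanSpace.single i 1 ∨ u = -EuclideanSpace.single i 1) := by
  constructor
  · intro u hu
    have hs : ∑ j, u j ^ 2 = 1 := by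
      rw [← EuclideanSpace.real_norm_sq_eq, hu]; norm_num
    unfold perim cube
    rw [Pool.Agent.H94.Per7.frontier_eq]
    exact Pool.Agent.H94.Per7.two u hs (by simp)
  · intro n hn u hu
    obtain ⟨d, rfl⟩ : ∃ d, n = d + 2 := ⟨n - 2, by omega⟩
    unfold perim cube
    rw [Pool.Agent.H94.Per7.frontier_eq]
    exact Pool.Agent.H94.Per7.final u hu d (by simp) (by omega)

end Pool.Agent.Results.MP_484e46_gt.MinPerimeter
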